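import Pool.Agent.T2H92.FP.FIN
import Pool.Agent.T2H92.FP.AX
import Pool.Agent.T2H92.FP.B0
import Pool.Agent.T2H92.FP.BLK
import Pool.Agent.T2H92.FP.COUNT
import Pool.Agent.T2H92.FP.DIAG
import Pool.Agent.T2H92.FP.EXPL
import Pool.Agent.T2H92.FP.INV
import Pool.Agent.T2H92.FP.ISO
import Pool.Agent.T2H92.FP.LAP
import Pool.Agent.T2H92.FP.MEAS
import Pool.Agent.T2H92.FP.MEM
import Pool.Agent.T2H92.FP.MEM1
import Pool.Agent.T2H92.FP.ONE
import Pool.Agent.T2H92.FP.PI
import Pool.Agent.T2H92.FP.RES
import Pool.Agent.T2H92.FP.STEP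

/-!
# The limit shape of exponential first passage percolation is not a ball for `15 ≤ d ≤ 34`

If it were a Euclidean ball, the passage times would satisfy `T(0, n x) / n → c |x|` in every direction.
A first moment bound over paths without immediate reversals gives `s_d ≤ c √d` (direction `(1, ..., 1)`), an
exploration of two consecutive hyperplanes, with the edge isoperimetric inequality as the worst case and a
potential function checked by the kernel, gives `c ≤ μ_d` (direction `e₁`), and `μ_d √d < s_d`.
-/

set_option autoImplicit false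

open MeasureTheory ProbabilityTheory Filter Topology

namespace Pool.Agent.Results.MP_edae2b_pr.DimensionsFromFifteen

open Pool.Agent.T2H92.FP

/-- For `15 ≤ d < 35`, with i.i.d. `Exp(1)` weights on the edges of `ℤ^d`, there is no constant `c` such that for every
lattice point `x` the passage time from `0` to `n x`, divided by `n`, tends almost surely to `c |x|`. -/
theorem result :
    ∀ d : ℕ, 15 ≤ d → d < 35 →
      ∀ (Ω : Type) [MeasurableSpace Ω] (P : Measure Ω) [IsProbabilityMeasure P]
        (ω : Sym2 (Fin d → ℤ) → Ω → ℝ),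
        iIndepFun ω P →
        (∀ e, Measurable (ω e) ∧ P.map (ω e) = expMeasure 1) →
        ¬ ∃ c : ℝ, ∀ x : Fin d → ℤ, ∀ᵐ t ∂P,
          Tendsto
            (fun n : ℕ =>
              (⨅ p : (SimpleGraph.fromRel
                  (fun y z : Fin d → ℤ => ∑ i, |y i - z i| = 1)).Walk 0 (n • x),
                  (p.edges.map (fun e => ω e t)).sum) / (n : ℝ))
            atTop (𝓝 (c * Real.sqrt (∑ i, ((x i : ℝ)) ^ 2))) :=
  pFIN (pAX pMEAS (pEXPL pISO (pONE pMEAS (pMEM pRES pMEM1) pSTEP)) (pBLK (pPI pMEAS pRES pINV) pB0))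
    (pDIAG pCOUNT pLAP)

end Pool.Agent.Results.MP_edae2b_pr.DimensionsFromFifteen
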